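import Mathlib
import Pool.Agent.N740.HK.Trials

/-!
# Trials at predictable places
-/

set_option autoImplicit false
set_option linter.unusedSectionVars false

open MeasureTheory Filter Set
open scoped ENNReal Topology

namespace Pool.Agent.N315.CC

open Pool.Agent.R528.RM Pool.Agent.N740.HK

variable {Ω : Type} {m0 : MeasurableSpace Ω} {μ : Measure Ω} [IsProbabilityMeasure μ]
  {ℱ : Filtration ℕ m0} {A G V : ℕ → Set Ω}

open Classical in
/-- the number of trials at the times `t, ..., t + j - 1` -/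
noncomputable def cG (G : ℕ → Set Ω) (t j : ℕ) (ω : Ω) : ℕ :=
  ∑ r ∈ Finset.range j, if ω ∈ G (t + r) then 1 else 0

/-- no success -/
def noS (A G : ℕ → Set Ω) (t j : ℕ) : Set Ω := {ω | ∀ r, t ≤ r → r < t + j → ω ∈ G r → ω ∉ A (r + 1)}

/-- some trial is made at a violation -/
def vG (G V : ℕ → Set Ω) (t j : ℕ) : Set Ω := {ω | ∃ r, t ≤ r ∧ r < t + j ∧ ω ∈ G r ∧ ω ∈ V r}

open Classical in
lemma cG_succ (t j : ℕ) (ω : Ω) : cG G t (j + 1) ω = cG G (t + 1) j ω + if ω ∈ G t then 1 else 0 := by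
  unfold cG
  rw [Finset.sum_range_succ']
  congr 1
  apply Finset.sum_congr rfl
  intro r _
  rw [show t + (r + 1) = t + 1 + r by omega]

lemma noS_succ {t j : ℕ} {ω : Ω} : ω ∈ noS A G t (j + 1) ↔ (ω ∈ G t → ω ∉ A (t + 1)) ∧ ω ∈ noS A G (t + 1) j := by
  constructor
  · intro h
    exact ⟨h t le_rfl (by omega), fun r h1 h2 => h r (by omega) (by omega)⟩
  · rintro ⟨h1, h2⟩ r h3 h4
    rcases Nat.eq_or_lt_of_le h3 with h | h
    · subst h
      exact h1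
    · exact h2 r (by omega) (by omega)

lemma vG_succ {t j : ℕ} {ω : Ω} : ω ∈ vG G V t (j + 1) ↔ (ω ∈ G t ∧ ω ∈ V t) ∨ ω ∈ vG G V (t + 1) j := by
  constructor
  · rintro ⟨r, h1, h2, h3, h4⟩
    rcases Nat.eq_or_lt_of_le h1 with h | h
    · subst h
      exact Or.inl ⟨h3, h4⟩
    · exact Or.inr ⟨r, by omega, by omega, h3, h4⟩
  · rintro (⟨h1, h2⟩ | ⟨r, h1, h2, h3, h4⟩)
    · exact ⟨t, le_rfl, by omega, h1, h2⟩
    · exact ⟨r, by omega, by omega, h3, h4⟩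

lemma noS_meas (hA : ∀ n, MeasurableSet[ℱ n] (A n)) (hG : ∀ n, MeasurableSet[ℱ n] (G n)) (t j : ℕ) :
    MeasurableSet[ℱ (t + j)] (noS A G t j) := by
  have e : noS A G t j = ⋂ r ∈ Finset.Ico t (t + j), (G r ∩ A (r + 1))ᶜ := by
    ext ω
    simp only [noS, mem_ofPred_eq, mem_iInter, Finset.mem_Ico, mem_compl_iff, mem_inter_iff, not_and]
    exact ⟨fun h r hr => h r hr.1 hr.2, fun h r h1 h2 => h r ⟨h1, h2⟩⟩
  rw [e]
  refine Finset.measurableSet_biInter _ fun r hr => ?_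
  have hr := Finset.mem_Ico.1 hr
  exact ((ℱ.mono (by omega) _ (hG r)).inter (ℱ.mono (by omega) _ (hA (r + 1)))).compl

lemma vG_meas (hG : ∀ n, MeasurableSet[ℱ n] (G n)) (hV : ∀ n, MeasurableSet[ℱ n] (V n)) (t j : ℕ) :
    MeasurableSet[ℱ (t + j)] (vG G V t j) := by
  have e : vG G V t j = ⋃ r ∈ Finset.Ico t (t + j), (G r ∩ V r) := by
    ext ω
    simp only [vG, mem_ofPred_eq, mem_iUnion, Finset.mem_Ico, mem_inter_iff, exists_prop]
    exact ⟨fun ⟨r, h1, h2, h3⟩ => ⟨r, ⟨h1, h2⟩, h3⟩, fun ⟨r, ⟨h1, h2⟩, h3⟩ => ⟨r, h1, h2, h3⟩⟩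
  rw [e]
  refine Finset.measurableSet_biUnion _ fun r hr => ?_
  have hr := Finset.mem_Ico.1 hr
  exact (ℱ.mono (by omega) _ (hG r)).inter (ℱ.mono (by omega) _ (hV r))

lemma cG_meas (hG : ∀ n, MeasurableSet[ℱ n] (G n)) (t j : ℕ) (P : ℕ → Prop) :
    MeasurableSet[ℱ (t + j)] {ω | P (cG G t j ω)} := by
  classical
  have h : Measurable[ℱ (t + j)] (cG G t j) := by
    unfold cG
    refine @Finset.measurable_fun_sum _ _ _ _ _ _ (ℱ (t + j)) _ _ fun r hr => ?_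
    have hr := Finset.mem_range.1 hr
    have hm : MeasurableSet[ℱ (t + j)] {ω | ω ∈ G (t + r)} := ℱ.mono (by omega) _ (hG (t + r))
    exact Measurable.ite (f := fun _ => 1) (g := fun _ => 0) hm measurable_const measurable_const
  exact h (MeasurableSet.of_discrete (s := {x | P x}))

theorem trial_le (hA : ∀ n, MeasurableSet[ℱ n] (A n)) (hG : ∀ n, MeasurableSet[ℱ n] (G n))
    (hV : ∀ n, MeasurableSet[ℱ n] (V n)) {l : ℝ} (hl0 : 0 ≤ l) (hl1 : l ≤ 1) (j : ℕ) :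
    ∀ t : ℕ, (∀ n, t ≤ n → n < t + j → ∀ ω, ω ∉ V n → l ≤ dens μ ℱ A n ω) → ∀ (m : ℕ) (B : Set Ω),
      MeasurableSet[ℱ t] B →
      μ.real (B ∩ ((noS A G t j ∩ {ω | m ≤ cG G t j ω}) \ vG G V t j)) ≤ (1 - l) ^ m * μ.real B := by
  classical
  induction j with
  | zero =>
    intro t _ m B _
    rcases Nat.eq_zero_or_pos m with h | h
    · subst h
      rw [pow_zero, one_mul]
      exact measureReal_mono inter_subset_left
    · have e : B ∩ ((noS A G t 0 ∩ {ω | m ≤ cG G t 0 ω}) \ vG G V t 0) = ∅ := by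
        rw [eq_empty_iff_forall_notMem]
        rintro ω ⟨_, ⟨_, h2⟩, _⟩
        have : cG G t 0 ω = 0 := by simp [cG]
        have h2 : m ≤ cG G t 0 ω := h2
        omega
      rw [e, measureReal_empty]
      have : 0 ≤ 1 - l := by linarith
      positivity
  | succ j ih =>
    intro t hl m B hB
    have hq : 0 ≤ 1 - l := by linarith
    have ih := ih (t + 1) (fun n h1 h2 => hl n (by omega) (by omega))
    have hG0 : MeasurableSet (G t) := ℱ.le _ _ (hG t)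
    have hV0 : MeasurableSet (V t) := ℱ.le _ _ (hV t)
    have hA0 : MeasurableSet (A (t + 1)) := ℱ.le _ _ (hA (t + 1))
    set X : Set Ω := B ∩ ((noS A G t (j + 1) ∩ {ω | m ≤ cG G t (j + 1) ω}) \ vG G V t (j + 1)) with hX
    have e1 := measureReal_inter_add_sdiff (μ := μ) (s := X) hG0
    have e2 := measureReal_inter_add_sdiff (μ := μ) (s := B) hG0
    have hB1 : MeasurableSet[ℱ (t + 1)] (B \ G t) := ℱ.mono (by omega) _ (hB.diff (hG t))
    have i1 := ih m _ hB1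
    have s1 : X \ G t ⊆ (B \ G t) ∩ ((noS A G (t + 1) j ∩ {ω | m ≤ cG G (t + 1) j ω}) \ vG G V (t + 1) j) := by
      rintro ω ⟨⟨h1, ⟨h2, h3⟩, h4⟩, h5⟩
      have h3 : m ≤ cG G t (j + 1) ω := h3
      rw [cG_succ, if_neg h5, add_zero] at h3
      exact ⟨⟨h1, h5⟩, ⟨(noS_succ.1 h2).2, h3⟩, fun h => h4 (vG_succ.2 (Or.inr h))⟩
    have i2 : μ.real (X \ G t) ≤ (1 - l) ^ m * μ.real (B \ G t) := (measureReal_mono s1).trans i1
    have hBV : MeasurableSet[ℱ t] ((B ∩ G t) \ V t) := (hB.inter (hG t)).diff (hV t)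
    have hB2 : MeasurableSet[ℱ (t + 1)] (((B ∩ G t) \ V t) \ A (t + 1)) :=
      (ℱ.mono (by omega) _ hBV).diff (hA (t + 1))
    have i3 := ih (m - 1) _ hB2
    have hlow := lower_meas (μ := μ) hA t hBV (l := l) (fun ω hω => hl t le_rfl (by omega) ω hω.2)
    have e3 := measureReal_inter_add_sdiff (μ := μ) (s := (B ∩ G t) \ V t) hA0
    have i4 : μ.real (((B ∩ G t) \ V t) \ A (t + 1)) ≤ (1 - l) * μ.real (B ∩ G t) := by
      have h6 : μ.real ((B ∩ G t) \ V t) ≤ μ.real (B ∩ G t) := measureReal_mono sdiff_subset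
      have h7 := mul_le_mul_of_nonneg_left h6 hq
      linarith
    have s2 : X ∩ G t ⊆ (((B ∩ G t) \ V t) \ A (t + 1)) ∩
        ((noS A G (t + 1) j ∩ {ω | m - 1 ≤ cG G (t + 1) j ω}) \ vG G V (t + 1) j) := by
      rintro ω ⟨⟨h1, ⟨h2, h3⟩, h4⟩, h5⟩
      have h3 : m ≤ cG G t (j + 1) ω := h3
      rw [cG_succ, if_pos h5] at h3
      refine ⟨⟨⟨⟨h1, h5⟩, fun h => h4 (vG_succ.2 (Or.inl ⟨h5, h⟩))⟩, (noS_succ.1 h2).1 h5⟩,
        ⟨(noS_succ.1 h2).2, ?_⟩, fun h => h4 (vG_succ.2 (Or.inr h))⟩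
      show m - 1 ≤ cG G (t + 1) j ω
      omega
    have i5 : μ.real (X ∩ G t) ≤ (1 - l) ^ m * μ.real (B ∩ G t) := by
      refine (measureReal_mono s2).trans (i3.trans ?_)
      rcases Nat.eq_zero_or_pos m with h | h
      · subst h
        have h8 : (1 - l) * μ.real (B ∩ G t) ≤ μ.real (B ∩ G t) :=
          mul_le_of_le_one_left measureReal_nonneg (by linarith)
        simpa using i4.trans h8
      · obtain ⟨m', rfl⟩ : ∃ m', m = m' + 1 := ⟨m - 1, by omega⟩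
        rw [Nat.add_sub_cancel, pow_succ, mul_assoc]
        exact mul_le_mul_of_nonneg_left i4 (by positivity)
    rw [← e1, ← e2, mul_add]
    exact add_le_add i5 i2

theorem trial_ge (hA : ∀ n, MeasurableSet[ℱ n] (A n)) (hG : ∀ n, MeasurableSet[ℱ n] (G n))
    (hV : ∀ n, MeasurableSet[ℱ n] (V n)) {u : ℝ} (hu0 : 0 ≤ u) (hu1 : u ≤ 1) (j : ℕ) :
    ∀ t : ℕ, (∀ n, t ≤ n → n < t + j → ∀ ω, ω ∉ V n → dens μ ℱ A n ω ≤ u) → ∀ (m : ℕ) (B : Set Ω),
      MeasurableSet[ℱ t] B →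
      (1 - u) ^ m * μ.real B ≤ μ.real (B ∩ (noS A G t j ∪ {ω | m < cG G t j ω} ∪ vG G V t j)) := by
  classical
  induction j with
  | zero =>
    intro t _ m B _
    have e : B ∩ (noS A G t 0 ∪ {ω | m < cG G t 0 ω} ∪ vG G V t 0) = B := by
      apply inter_eq_left.2
      intro ω _
      left
      left
      intro r h1 h2
      omega
    rw [e]
    exact mul_le_of_le_one_left measureReal_nonneg (pow_le_one₀ (by linarith) (by linarith))
  | succ j ih =>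
    intro t hu m B hB
    have hq : 0 ≤ 1 - u := by linarith
    have hq1 : 1 - u ≤ 1 := by linarith
    have ih := ih (t + 1) (fun n h1 h2 => hu n (by omega) (by omega))
    have hG0 : MeasurableSet (G t) := ℱ.le _ _ (hG t)
    have hV0 : MeasurableSet (V t) := ℱ.le _ _ (hV t)
    have hA0 : MeasurableSet (A (t + 1)) := ℱ.le _ _ (hA (t + 1))
    set X : Set Ω := B ∩ (noS A G t (j + 1) ∪ {ω | m < cG G t (j + 1) ω} ∪ vG G V t (j + 1)) with hX
    have e1 := measureReal_inter_add_sdiff (μ := μ) (s := X) hG0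
    have e2 := measureReal_inter_add_sdiff (μ := μ) (s := B) hG0
    have e4 := measureReal_inter_add_sdiff (μ := μ) (s := B ∩ G t) hV0
    have e5 := measureReal_inter_add_sdiff (μ := μ) (s := X ∩ G t) hV0
    have hB1 : MeasurableSet[ℱ (t + 1)] (B \ G t) := ℱ.mono (by omega) _ (hB.diff (hG t))
    have i1 := ih m _ hB1
    have s1 : (B \ G t) ∩ (noS A G (t + 1) j ∪ {ω | m < cG G (t + 1) j ω} ∪ vG G V (t + 1) j) ⊆ X \ G t := by
      rintro ω ⟨⟨h1, h5⟩, (h2 | h2) | h2⟩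
      · exact ⟨⟨h1, Or.inl (Or.inl (noS_succ.2 ⟨fun h => absurd h h5, h2⟩))⟩, h5⟩
      · refine ⟨⟨h1, Or.inl (Or.inr ?_)⟩, h5⟩
        show m < cG G t (j + 1) ω
        rw [cG_succ, if_neg h5, add_zero]
        exact h2
      · exact ⟨⟨h1, Or.inr (vG_succ.2 (Or.inr h2))⟩, h5⟩
    have i2 : (1 - u) ^ m * μ.real (B \ G t) ≤ μ.real (X \ G t) := i1.trans (measureReal_mono s1)
    have hBV : MeasurableSet[ℱ t] ((B ∩ G t) \ V t) := (hB.inter (hG t)).diff (hV t)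
    have hB2 : MeasurableSet[ℱ (t + 1)] (((B ∩ G t) \ V t) \ A (t + 1)) :=
      (ℱ.mono (by omega) _ hBV).diff (hA (t + 1))
    have hup := upper_meas (μ := μ) hA t hBV (u := u) (fun ω hω => hu t le_rfl (by omega) ω hω.2)
    have e3 := measureReal_inter_add_sdiff (μ := μ) (s := (B ∩ G t) \ V t) hA0
    have i4 : (1 - u) * μ.real ((B ∩ G t) \ V t) ≤ μ.real (((B ∩ G t) \ V t) \ A (t + 1)) := by linarith
    have s2 : (B ∩ G t) ∩ V t ⊆ (X ∩ G t) ∩ V t := by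
      rintro ω ⟨⟨h1, h2⟩, h3⟩
      exact ⟨⟨⟨h1, Or.inr (vG_succ.2 (Or.inl ⟨h2, h3⟩))⟩, h2⟩, h3⟩
    have i5 : (1 - u) ^ m * μ.real ((B ∩ G t) ∩ V t) ≤ μ.real ((X ∩ G t) ∩ V t) :=
      (mul_le_of_le_one_left measureReal_nonneg (pow_le_one₀ hq hq1)).trans (measureReal_mono s2)
    have i6 : (1 - u) ^ m * μ.real ((B ∩ G t) \ V t) ≤ μ.real ((X ∩ G t) \ V t) := by
      rcases Nat.eq_zero_or_pos m with h | h
      · subst h
        rw [pow_zero, one_mul]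
        refine measureReal_mono ?_
        rintro ω ⟨⟨h1, h2⟩, h3⟩
        refine ⟨⟨⟨h1, Or.inl (Or.inr ?_)⟩, h2⟩, h3⟩
        show 0 < cG G t (j + 1) ω
        rw [cG_succ, if_pos h2]
        omega
      · obtain ⟨m', rfl⟩ : ∃ m', m = m' + 1 := ⟨m - 1, by omega⟩
        have i3 := ih m' _ hB2
        have s3 : (((B ∩ G t) \ V t) \ A (t + 1)) ∩ (noS A G (t + 1) j ∪ {ω | m' < cG G (t + 1) j ω} ∪ vG G V (t + 1) j) ⊆
            (X ∩ G t) \ V t := by
          rintro ω ⟨⟨⟨⟨h1, h2⟩, h3⟩, h4⟩, (h5 | h5) | h5⟩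
          · exact ⟨⟨⟨h1, Or.inl (Or.inl (noS_succ.2 ⟨fun _ => h4, h5⟩))⟩, h2⟩, h3⟩
          · refine ⟨⟨⟨h1, Or.inl (Or.inr ?_)⟩, h2⟩, h3⟩
            show m' + 1 < cG G t (j + 1) ω
            rw [cG_succ, if_pos h2]
            have h5 : m' < cG G (t + 1) j ω := h5
            omega
          · exact ⟨⟨⟨h1, Or.inr (vG_succ.2 (Or.inr h5))⟩, h2⟩, h3⟩
        refine le_trans ?_ (i3.trans (measureReal_mono s3))
        rw [pow_succ, mul_assoc]
        exact mul_le_mul_of_nonneg_left i4 (by positivity)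
    rw [← e1, ← e2, ← e4, ← e5, mul_add, mul_add]
    linarith

end Pool.Agent.N315.CC
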