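import Mathlib
import Pool.Agent.N740.HK.Conc
import Pool.Agent.N315.CC.Trial

/-!
# Chains in windows
-/

set_option autoImplicit false
set_option linter.unusedSectionVars false

open MeasureTheory Filter Set
open scoped ENNReal Topology

namespace Pool.Agent.N315.CC

open Pool.Agent.R528.RM Pool.Agent.N740.HK

variable {Ω : Type} {m0 : MeasurableSpace Ω} {μ : Measure Ω} [IsProbabilityMeasure μ]
  {ℱ : Filtration ℕ m0} {A : ℕ → Set Ω} {φ : ℕ → ℕ} {L : ℕ → ℕ}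

/-- `n, φ n, ..., φ^(i-1) n` are chosen -/
def chn (A : ℕ → Set Ω) (φ : ℕ → ℕ) (i n : ℕ) : Set Ω := {ω | ∀ j < i, ω ∈ A (φ^[j] n)}

/-- `t + 1` is the place of a trial -/
def GW (A : ℕ → Set Ω) (φ : ℕ → ℕ) (L : ℕ → ℕ) (i x t : ℕ) : Set Ω :=
  {ω | ∃ n, x < n ∧ n ≤ x + L x ∧ φ^[i] n = t + 1 ∧ ω ∈ chn A φ i n}

open Classical in
/-- the number of chains in the window -/
noncomputable def NN (A : ℕ → Set Ω) (φ : ℕ → ℕ) (L : ℕ → ℕ) (i x : ℕ) (ω : Ω) : ℕ :=
  ((Finset.Ioc x (x + L x)).filter (fun n => ω ∈ chn A φ i n)).card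

lemma it_lt (hφ1 : ∀ z, z < φ z) {i j n : ℕ} (h : i < j) : φ^[i] n < φ^[j] n := by
  have : StrictMono (fun i => φ^[i] n) := strictMono_nat_of_lt_succ fun i => by
    show φ^[i] n < φ^[i + 1] n
    rw [Function.iterate_succ_apply']
    exact hφ1 _
  exact this h

lemma it_ge (hφ1 : ∀ z, z < φ z) (i n : ℕ) : n ≤ φ^[i] n := by
  rcases Nat.eq_zero_or_pos i with h | h
  · subst h
    exact le_rfl
  · exact (it_lt hφ1 (i := 0) h).le

lemma chn_meas (hA : ∀ n, MeasurableSet[ℱ n] (A n)) (hφ1 : ∀ z, z < φ z) {i n t : ℕ} (h : φ^[i] n ≤ t + 1) :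
    MeasurableSet[ℱ t] (chn A φ i n) := by
  have e : chn A φ i n = ⋂ j ∈ Finset.range i, A (φ^[j] n) := by
    ext ω
    simp only [chn, mem_ofPred_eq, mem_iInter, Finset.mem_range]
  rw [e]
  refine Finset.measurableSet_biInter _ fun j hj => ?_
  have hj := Finset.mem_range.1 hj
  have := it_lt hφ1 (n := n) hj
  exact ℱ.mono (by omega) _ (hA _)

lemma GW_meas (hA : ∀ n, MeasurableSet[ℱ n] (A n)) (hφ1 : ∀ z, z < φ z) (i x t : ℕ) :
    MeasurableSet[ℱ t] (GW A φ L i x t) := by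
  have e : GW A φ L i x t = ⋃ n ∈ (Finset.Ioc x (x + L x)).filter (fun n => φ^[i] n = t + 1), chn A φ i n := by
    ext ω
    simp only [GW, mem_ofPred_eq, mem_iUnion, Finset.mem_filter, Finset.mem_Ioc, exists_prop]
    constructor
    · rintro ⟨n, h1, h2, h3, h4⟩
      exact ⟨n, ⟨⟨h1, h2⟩, h3⟩, h4⟩
    · rintro ⟨n, ⟨⟨h1, h2⟩, h3⟩, h4⟩
      exact ⟨n, h1, h2, h3, h4⟩
  rw [e]
  refine Finset.measurableSet_biUnion _ fun n hn => ?_
  exact chn_meas hA hφ1 (Finset.mem_filter.1 hn).2.le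

lemma chn_succ {i n : ℕ} {ω : Ω} : ω ∈ chn A φ (i + 1) n ↔ ω ∈ chn A φ i n ∧ ω ∈ A (φ^[i] n) := by
  constructor
  · intro h
    exact ⟨fun j hj => h j (by omega), h i (by omega)⟩
  · rintro ⟨h1, h2⟩ j hj
    rcases Nat.lt_succ_iff_lt_or_eq.1 hj with h | h
    · exact h1 j h
    · subst h
      exact h2

open Classical in
lemma sum_GW {M : Type} [AddCommMonoid M] (hφ : StrictMono φ) (hφ1 : ∀ z, z < φ z) (i x : ℕ) (ω : Ω) (T : Finset ℕ)
    (hT : ∀ n, x < n → n ≤ x + L x → φ^[i] n - 1 ∈ T) (h : ℕ → M) :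
    ∑ t ∈ T, (if ω ∈ GW A φ L i x t then h t else 0) =
      ∑ n ∈ (Finset.Ioc x (x + L x)).filter (fun n => ω ∈ chn A φ i n), h (φ^[i] n - 1) := by
  rw [← Finset.sum_filter]
  symm
  refine Finset.sum_nbij (fun n => φ^[i] n - 1) ?_ ?_ ?_ ?_
  · intro n hn
    rw [Finset.mem_filter, Finset.mem_Ioc] at hn
    rw [Finset.mem_filter]
    have := it_ge hφ1 i n
    exact ⟨hT n hn.1.1 hn.1.2, n, hn.1.1, hn.1.2, by omega, hn.2⟩
  · intro a ha b hb hab
    rw [Finset.mem_coe, Finset.mem_filter, Finset.mem_Ioc] at ha hb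
    have h1 := it_ge hφ1 i a
    have h2 := it_ge hφ1 i b
    have hab : φ^[i] a - 1 = φ^[i] b - 1 := hab
    exact (hφ.iterate i).injective (by omega)
  · intro t ht
    rw [Finset.mem_coe, Finset.mem_filter] at ht
    obtain ⟨h1, n, h2, h3, h4, h5⟩ := ht
    refine ⟨n, ?_, ?_⟩
    · rw [Finset.mem_coe, Finset.mem_filter, Finset.mem_Ioc]
      exact ⟨⟨h2, h3⟩, h5⟩
    · show φ^[i] n - 1 = t
      omega
  · intro n _
    rfl

/-- the number of trials -/
lemma cG_GW (hφ : StrictMono φ) (hφ1 : ∀ z, z < φ z) (i x : ℕ) (ω : Ω) :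
    cG (GW A φ L i x) (φ^[i] x) (φ^[i] (x + L x) - φ^[i] x) ω = NN A φ L i x ω := by
  classical
  unfold cG NN
  have h1 : φ^[i] x ≤ φ^[i] (x + L x) := (hφ.iterate i).monotone (by omega)
  have h2 := sum_GW (A := A) (L := L) (M := ℕ) hφ hφ1 i x ω (Finset.Ico (φ^[i] x) (φ^[i] (x + L x))) (fun n hn1 hn2 => by
    rw [Finset.mem_Ico]
    have h3 : φ^[i] x < φ^[i] n := (hφ.iterate i) hn1
    have h4 : φ^[i] n ≤ φ^[i] (x + L x) := (hφ.iterate i).monotone hn2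
    omega) (fun _ => 1)
  rw [Finset.card_eq_sum_ones, ← h2, Finset.sum_Ico_eq_sum_range]

/-- the sums of the concentration theorem -/
lemma sum_J (hφ : StrictMono φ) (hφ1 : ∀ z, z < φ z) (i x : ℕ) (ω : Ω) :
    ∑ t ∈ Finset.range (φ^[i] (x + L x)), (GW A φ L i x t).indicator (fun _ => (1 : ℝ)) ω * J1 A (t + 1) ω =
      NN A φ L (i + 1) x ω := by
  classical
  have h2 := sum_GW (A := A) (L := L) hφ hφ1 i x ω (Finset.range (φ^[i] (x + L x))) (fun n hn1 hn2 => by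
    rw [Finset.mem_range]
    have h3 : φ^[i] x < φ^[i] n := (hφ.iterate i) hn1
    have h4 : φ^[i] n ≤ φ^[i] (x + L x) := (hφ.iterate i).monotone hn2
    omega) (fun t => J1 A (t + 1) ω)
  have h3 : ∑ t ∈ Finset.range (φ^[i] (x + L x)), (GW A φ L i x t).indicator (fun _ => (1 : ℝ)) ω * J1 A (t + 1) ω =
      ∑ t ∈ Finset.range (φ^[i] (x + L x)), (if ω ∈ GW A φ L i x t then J1 A (t + 1) ω else 0) := by
    refine Finset.sum_congr rfl fun t _ => ?_
    by_cases h : ω ∈ GW A φ L i x t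
    · rw [indicator_of_mem h, if_pos h, one_mul]
    · rw [indicator_of_notMem h, if_neg h, zero_mul]
  rw [h3, h2]
  unfold NN
  have h4 : (Finset.Ioc x (x + L x)).filter (fun n => ω ∈ chn A φ (i + 1) n) =
      ((Finset.Ioc x (x + L x)).filter (fun n => ω ∈ chn A φ i n)).filter (fun n => ω ∈ A (φ^[i] n)) := by
    rw [Finset.filter_filter]
    refine Finset.filter_congr fun n _ => chn_succ
  rw [h4, Finset.card_filter]
  push_cast
  refine Finset.sum_congr rfl fun n hn => ?_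
  rw [Finset.mem_filter, Finset.mem_Ioc] at hn
  have h5 := it_ge hφ1 i n
  rw [show φ^[i] n - 1 + 1 = φ^[i] n by omega]
  unfold J1
  by_cases h : ω ∈ A (φ^[i] n)
  · rw [indicator_of_mem h, if_pos h]
  · rw [indicator_of_notMem h, if_neg h]

lemma sum_log (hφ : StrictMono φ) (hφ1 : ∀ z, z < φ z) (i x : ℕ) (hx : 2 ≤ x) (ω : Ω) :
    (NN A φ L i x ω : ℝ) / Real.log (φ^[i] (x + L x) : ℕ) ≤
      ∑ t ∈ Finset.range (φ^[i] (x + L x)), (GW A φ L i x t).indicator (fun _ => (1 : ℝ)) ω / Real.log t ∧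
    ∑ t ∈ Finset.range (φ^[i] (x + L x)), (GW A φ L i x t).indicator (fun _ => (1 : ℝ)) ω / Real.log t ≤
      (NN A φ L i x ω : ℝ) / Real.log (φ^[i] x : ℕ) := by
  classical
  have h2 := sum_GW (A := A) (L := L) hφ hφ1 i x ω (Finset.range (φ^[i] (x + L x))) (fun n hn1 hn2 => by
    rw [Finset.mem_range]
    have h3 : φ^[i] x < φ^[i] n := (hφ.iterate i) hn1
    have h4 : φ^[i] n ≤ φ^[i] (x + L x) := (hφ.iterate i).monotone hn2
    omega) (fun t => 1 / Real.log t)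
  have h3 : ∑ t ∈ Finset.range (φ^[i] (x + L x)), (GW A φ L i x t).indicator (fun _ => (1 : ℝ)) ω / Real.log t =
      ∑ t ∈ Finset.range (φ^[i] (x + L x)), (if ω ∈ GW A φ L i x t then 1 / Real.log t else 0) := by
    refine Finset.sum_congr rfl fun t _ => ?_
    by_cases h : ω ∈ GW A φ L i x t
    · rw [indicator_of_mem h, if_pos h]
    · rw [indicator_of_notMem h, if_neg h, zero_div]
  rw [h3, h2]
  have hx2 := it_ge hφ1 i x
  have hb : ∀ n ∈ (Finset.Ioc x (x + L x)).filter (fun n => ω ∈ chn A φ i n),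
      1 / Real.log (φ^[i] (x + L x) : ℕ) ≤ 1 / Real.log ((φ^[i] n - 1 : ℕ) : ℝ) ∧
      1 / Real.log ((φ^[i] n - 1 : ℕ) : ℝ) ≤ 1 / Real.log (φ^[i] x : ℕ) := by
    intro n hn
    rw [Finset.mem_filter, Finset.mem_Ioc] at hn
    have h3 : φ^[i] x < φ^[i] n := (hφ.iterate i) hn.1.1
    have h4 : φ^[i] n ≤ φ^[i] (x + L x) := (hφ.iterate i).monotone hn.1.2
    have h5 : (φ^[i] x : ℝ) ≤ ((φ^[i] n - 1 : ℕ) : ℝ) := by exact_mod_cast (by omega : φ^[i] x ≤ φ^[i] n - 1)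
    have h6 : ((φ^[i] n - 1 : ℕ) : ℝ) ≤ (φ^[i] (x + L x) : ℝ) := by
      exact_mod_cast (by omega : φ^[i] n - 1 ≤ φ^[i] (x + L x))
    have h7 : (2 : ℝ) ≤ (φ^[i] x : ℝ) := by exact_mod_cast (by omega : 2 ≤ φ^[i] x)
    have h8 : 0 < Real.log (φ^[i] x : ℕ) := Real.log_pos (by linarith)
    have h9 := Real.log_le_log (by linarith) h5
    have h10 := Real.log_le_log (by linarith) h6
    exact ⟨one_div_le_one_div_of_le (by linarith) h10, one_div_le_one_div_of_le h8 h9⟩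
  constructor
  · have := Finset.card_nsmul_le_sum _ _ _ fun n hn => (hb n hn).1
    rw [nsmul_eq_mul, mul_one_div] at this
    exact this
  · have := Finset.sum_le_card_nsmul _ _ _ fun n hn => (hb n hn).2
    rw [nsmul_eq_mul, mul_one_div] at this
    exact this

end Pool.Agent.N315.CC
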