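import Mathlib
import Pool.Agent.N315.CC.Win

/-!
# The number of shorter chains in all windows
-/

set_option autoImplicit false
set_option linter.unusedSectionVars false

open MeasureTheory Filter Set
open scoped ENNReal Topology

namespace Pool.Agent.N315.CC

open Pool.Agent.R528.RM Pool.Agent.N740.HK

variable {Ω : Type} {m0 : MeasurableSpace Ω} {μ : Measure Ω} [IsProbabilityMeasure μ]
  {ℱ : Filtration ℕ m0} {A : ℕ → Set Ω} {φ : ℕ → ℕ} {L : ℕ → ℕ} {d lam : ℝ}

lemma it_tendsto (hφ1 : ∀ z, z < φ z) (i : ℕ) : Tendsto (fun x => φ^[i] x) atTop atTop :=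
  tendsto_atTop_mono (fun x => it_ge hφ1 i x) tendsto_id

lemma log_pos_ev : ∀ᶠ x : ℕ in atTop, 0 < Real.log x := by
  filter_upwards [eventually_ge_atTop 2] with x hx
  have : (2 : ℝ) ≤ x := by exact_mod_cast hx
  exact Real.log_pos (by linarith)

lemma log_it (hφ1 : ∀ z, z < φ z) (hlog : Tendsto (fun z : ℕ => Real.log (φ z : ℕ) / Real.log z) atTop (𝓝 d)) (i : ℕ) :
    Tendsto (fun x : ℕ => Real.log (φ^[i] x : ℕ) / Real.log x) atTop (𝓝 (d ^ i)) := by
  induction i with
  | zero =>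
    rw [pow_zero]
    refine tendsto_const_nhds.congr' ?_
    filter_upwards [log_pos_ev] with x hx
    show 1 = Real.log x / Real.log x
    rw [div_self hx.ne']
  | succ i ih =>
    have h1 := (hlog.comp (it_tendsto hφ1 i)).mul ih
    rw [pow_succ, mul_comm]
    refine h1.congr' ?_
    filter_upwards [log_pos_ev, (it_tendsto hφ1 i).eventually log_pos_ev] with x hx hx2
    show Real.log (φ (φ^[i] x) : ℕ) / Real.log (φ^[i] x : ℕ) * (Real.log (φ^[i] x : ℕ) / Real.log x) = _
    rw [Function.iterate_succ_apply']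
    field_simp

lemma L_small {m : ℕ} (hL : Tendsto (fun x : ℕ => (L x : ℝ) / Real.log x ^ m) atTop (𝓝 lam)) :
    ∀ᶠ x : ℕ in atTop, L x ≤ x := by
  have h1 : ∀ᶠ x : ℝ in atTop, (|lam| + 1) * Real.log x ^ m ≤ x := by
    have h2 := (Real.isLittleO_pow_log_id_atTop (n := m)).def (show (0 : ℝ) < 1 / (|lam| + 1) by positivity)
    filter_upwards [h2, eventually_gt_atTop 1] with x hx hx0
    have hl : 0 ≤ Real.log x := Real.log_nonneg hx0.le
    rw [Real.norm_of_nonneg (by positivity), id, Real.norm_of_nonneg (by linarith)] at hx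
    calc (|lam| + 1) * Real.log x ^ m ≤ (|lam| + 1) * (1 / (|lam| + 1) * x) :=
          mul_le_mul_of_nonneg_left hx (by positivity)
      _ = x := by field_simp
  filter_upwards [hL.eventually_lt_const (show lam < |lam| + 1 by linarith [le_abs_self lam]),
    tendsto_natCast_atTop_atTop.eventually h1, log_pos_ev] with x h2 h3 h4
  rw [div_lt_iff₀ (by positivity)] at h2
  exact_mod_cast (h2.le.trans h3)

lemma log_shift {m : ℕ} (hL : Tendsto (fun x : ℕ => (L x : ℝ) / Real.log x ^ m) atTop (𝓝 lam)) :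
    Tendsto (fun x : ℕ => Real.log ((x + L x : ℕ) : ℝ) / Real.log x) atTop (𝓝 1) := by
  have h1 : Tendsto (fun x : ℕ => 1 + Real.log 2 / Real.log x) atTop (𝓝 (1 + 0)) :=
    tendsto_const_nhds.add (tendsto_const_nhds.div_atTop tendsto_logN)
  rw [add_zero] at h1
  refine tendsto_of_tendsto_of_tendsto_of_le_of_le' (tendsto_const_nhds (x := (1 : ℝ))) h1 ?_ ?_
  · filter_upwards [log_pos_ev, eventually_ge_atTop 1] with x hx hx1
    rw [le_div_iff₀ hx, one_mul]
    exact Real.log_le_log (by exact_mod_cast hx1) (by exact_mod_cast (by omega : x ≤ x + L x))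
  · filter_upwards [log_pos_ev, L_small hL, eventually_ge_atTop 1] with x hx h2 hx1
    have hx1' : (0 : ℝ) < x := by exact_mod_cast hx1
    rw [div_le_iff₀ hx, add_mul, one_mul, div_mul_cancel₀ _ hx.ne', add_comm (Real.log (x : ℝ)),
      ← Real.log_mul (by norm_num) hx1'.ne']
    exact Real.log_le_log (by exact_mod_cast (by omega : 0 < x + L x)) (by exact_mod_cast (by omega : x + L x ≤ 2 * x))

lemma shift_tendsto : Tendsto (fun x : ℕ => x + L x) atTop atTop :=
  tendsto_atTop_mono (fun x => Nat.le_add_right x (L x)) tendsto_id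

lemma log_it_shift (hφ1 : ∀ z, z < φ z)
    (hlog : Tendsto (fun z : ℕ => Real.log (φ z : ℕ) / Real.log z) atTop (𝓝 d)) {m : ℕ}
    (hL : Tendsto (fun x : ℕ => (L x : ℝ) / Real.log x ^ m) atTop (𝓝 lam)) (i : ℕ) :
    Tendsto (fun x : ℕ => Real.log (φ^[i] (x + L x) : ℕ) / Real.log x) atTop (𝓝 (d ^ i)) := by
  have h1 := ((log_it hφ1 hlog i).comp (shift_tendsto (L := L))).mul (log_shift hL)
  rw [mul_one] at h1
  refine h1.congr' ?_
  filter_upwards [log_pos_ev, (shift_tendsto (L := L)).eventually log_pos_ev] with x hx hx2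
  show Real.log (φ^[i] (x + L x) : ℕ) / Real.log ((x + L x : ℕ) : ℝ) * (Real.log ((x + L x : ℕ) : ℝ) / Real.log x) = _
  field_simp

/-- `0 + 1 + ... + (i - 1)` -/
def tri (i : ℕ) : ℕ := ∑ j ∈ Finset.range i, j

lemma tri_succ (i : ℕ) : tri (i + 1) = tri i + i := Finset.sum_range_succ _ _

lemma frac_aux {N l M : ℝ} (hl : l ≠ 0) (hM : M ≠ 0) (e : ℕ) : N / l ^ (e + 1) / (M / l) = N / M / l ^ e := by
  field_simp
  ring

/-- the deterministic step -/
lemma step (hφ : StrictMono φ) (hφ1 : ∀ z, z < φ z) (hd0 : 0 < d)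
    (hlog : Tendsto (fun z : ℕ => Real.log (φ z : ℕ) / Real.log z) atTop (𝓝 d)) {m : ℕ}
    (hL : Tendsto (fun x : ℕ => (L x : ℝ) / Real.log x ^ m) atTop (𝓝 lam)) (i : ℕ) {e : ℕ} (he : 2 ≤ e) {c : ℝ} (hc : 0 ≤ c)
    {ω : Ω} (h1 : Tendsto (fun x : ℕ => (NN A φ L i x ω : ℝ) / Real.log x ^ (e + 1)) atTop (𝓝 c))
    (h2 : ∀ ε : ℝ, 0 < ε → ∃ C : ℝ, ∀ᶠ n : ℕ in atTop,
      |∑ t ∈ Finset.range (φ^[i] (n + L n)), (GW A φ L i n t).indicator (fun _ => (1 : ℝ)) ω * J1 A (t + 1) ω -
        ∑ t ∈ Finset.range (φ^[i] (n + L n)), (GW A φ L i n t).indicator (fun _ => (1 : ℝ)) ω / Real.log t| ≤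
        ε * (∑ t ∈ Finset.range (φ^[i] (n + L n)), (GW A φ L i n t).indicator (fun _ => (1 : ℝ)) ω / Real.log t) +
          C * Real.log n) :
    Tendsto (fun x : ℕ => (NN A φ L (i + 1) x ω : ℝ) / Real.log x ^ e) atTop (𝓝 (c / d ^ i)) := by
  set S : ℕ → ℝ := fun x => ∑ t ∈ Finset.range (φ^[i] (x + L x)), (GW A φ L i x t).indicator (fun _ => (1 : ℝ)) ω / Real.log t with hS
  have hM : ∀ x : ℕ, 2 ≤ x → 0 < Real.log (φ^[i] x : ℕ) := by
    intro x hx
    have h3 := it_ge hφ1 i x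
    have h4 : (2 : ℝ) ≤ (φ^[i] x : ℝ) := by exact_mod_cast (by omega : 2 ≤ φ^[i] x)
    exact Real.log_pos (by linarith)
  have hS1 : Tendsto (fun x : ℕ => S x / Real.log x ^ e) atTop (𝓝 (c / d ^ i)) := by
    have g1 : Tendsto (fun x : ℕ => ((NN A φ L i x ω : ℝ) / Real.log x ^ (e + 1)) / (Real.log (φ^[i] (x + L x) : ℕ) / Real.log x))
        atTop (𝓝 (c / d ^ i)) := h1.div (log_it_shift hφ1 hlog hL i) (by positivity)
    have g2 : Tendsto (fun x : ℕ => ((NN A φ L i x ω : ℝ) / Real.log x ^ (e + 1)) / (Real.log (φ^[i] x : ℕ) / Real.log x))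
        atTop (𝓝 (c / d ^ i)) := h1.div (log_it hφ1 hlog i) (by positivity)
    refine tendsto_of_tendsto_of_tendsto_of_le_of_le' g1 g2 ?_ ?_
    · filter_upwards [log_pos_ev, eventually_ge_atTop 2] with x hx hx2
      have h3 := (sum_log (A := A) (L := L) hφ hφ1 i x hx2 ω).1
      rw [frac_aux hx.ne' (hM (x + L x) (by omega)).ne']
      exact div_le_div_of_nonneg_right h3 (by positivity)
    · filter_upwards [log_pos_ev, eventually_ge_atTop 2] with x hx hx2
      have h3 := (sum_log (A := A) (L := L) hφ hφ1 i x hx2 ω).2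
      rw [frac_aux hx.ne' (hM x hx2).ne']
      exact div_le_div_of_nonneg_right h3 (by positivity)
  have hc' : 0 ≤ c / d ^ i := by positivity
  have key : Tendsto (fun x : ℕ => ((NN A φ L (i + 1) x ω : ℝ) - S x) / Real.log x ^ e) atTop (𝓝 0) := by
    rw [Metric.tendsto_nhds]
    intro η hη
    set ε : ℝ := η / (2 * (c / d ^ i + 1)) with hε
    have hε0 : 0 < ε := by positivity
    obtain ⟨C, hC⟩ := h2 ε hε0
    have h5 : Tendsto (fun x : ℕ => |C| / Real.log x ^ (e - 1)) atTop (𝓝 0) :=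
      tendsto_const_nhds.div_atTop ((tendsto_pow_atTop (by omega)).comp tendsto_logN)
    filter_upwards [hC, log_pos_ev, hS1.eventually_lt_const (show c / d ^ i < c / d ^ i + 1 by linarith),
      h5.eventually_lt_const (show (0 : ℝ) < η / 2 by positivity)] with x h6 hx h7 h8
    rw [sum_J hφ hφ1] at h6
    have h6 : |(NN A φ L (i + 1) x ω : ℝ) - S x| ≤ ε * S x + C * Real.log x := h6
    rw [Real.dist_eq, sub_zero, abs_div, abs_of_pos (show 0 < Real.log (x : ℝ) ^ e by positivity), div_lt_iff₀ (by positivity)]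
    have h9 : |C| < η / 2 * Real.log x ^ (e - 1) := by rwa [div_lt_iff₀ (by positivity)] at h8
    have h10 : S x < (c / d ^ i + 1) * Real.log x ^ e := by rwa [div_lt_iff₀ (by positivity)] at h7
    have h11 : Real.log (x : ℝ) ^ e = Real.log x ^ (e - 1) * Real.log x := by
      rw [← pow_succ, Nat.sub_add_cancel (by omega)]
    have h12 : C * Real.log x ≤ η / 2 * Real.log x ^ e := by
      rw [h11, ← mul_assoc]
      exact mul_le_mul_of_nonneg_right ((le_abs_self C).trans h9.le) hx.le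
    have h13 : ε * S x < η / 2 * Real.log x ^ e := by
      calc ε * S x < ε * ((c / d ^ i + 1) * Real.log x ^ e) := mul_lt_mul_of_pos_left h10 hε0
        _ = η / 2 * Real.log x ^ e := by
          rw [hε]
          field_simp
    linarith
  have h3 := key.add hS1
  rw [zero_add] at h3
  refine h3.congr fun x => ?_
  ring

/-- **the number of shorter chains** -/
theorem law (hA : ∀ n, MeasurableSet[ℱ n] (A n))
    (hd : ∀ᵐ ω ∂μ, Tendsto (fun n : ℕ => dens μ ℱ A n ω * Real.log n) atTop (𝓝 1))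
    (hφ : StrictMono φ) (hφ1 : ∀ z, z < φ z) (hd0 : 0 < d)
    (hlog : Tendsto (fun z : ℕ => Real.log (φ z : ℕ) / Real.log z) atTop (𝓝 d)) (k : ℕ) (hlam : 0 ≤ lam)
    (hL : Tendsto (fun x : ℕ => (L x : ℝ) / Real.log x ^ (k + 1)) atTop (𝓝 lam)) :
    ∀ᵐ ω ∂μ, ∀ i, i + 1 ≤ k → Tendsto (fun x : ℕ => (NN A φ L i x ω : ℝ) / Real.log x ^ (k + 1 - i)) atTop
      (𝓝 (lam / d ^ tri i)) := by
  have h0 : ∀ᵐ ω ∂μ, ∀ i, ∀ ε : ℝ, 0 < ε → ∃ C : ℝ, ∀ᶠ n : ℕ in atTop,
      |∑ t ∈ Finset.range (φ^[i] (n + L n)), (GW A φ L i n t).indicator (fun _ => (1 : ℝ)) ω * J1 A (t + 1) ω -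
        ∑ t ∈ Finset.range (φ^[i] (n + L n)), (GW A φ L i n t).indicator (fun _ => (1 : ℝ)) ω / Real.log t| ≤
        ε * (∑ t ∈ Finset.range (φ^[i] (n + L n)), (GW A φ L i n t).indicator (fun _ => (1 : ℝ)) ω / Real.log t) +
          C * Real.log n := by
    rw [ae_all_iff]
    intro i
    exact conc_log (μ := μ) hA hd (fun n t => (GW A φ L i n t).indicator (fun _ => (1 : ℝ))) (fun n => φ^[i] (n + L n))
      (fun n t => (@stronglyMeasurable_const _ _ (ℱ t) _ _).indicator (GW_meas hA hφ1 i n t))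
      (fun n t ω => by
        by_cases h : ω ∈ GW A φ L i n t
        · rw [indicator_of_mem h]; norm_num
        · rw [indicator_of_notMem h]; norm_num)
  filter_upwards [h0] with ω hω
  intro i
  induction i with
  | zero =>
    intro _
    have e : ∀ x, NN A φ L 0 x ω = L x := by
      intro x
      classical
      unfold NN
      rw [Finset.filter_true_of_mem (fun n _ => by
        intro j hj
        omega), Nat.card_Ioc]
      omega
    simp only [e, Nat.sub_zero, tri, Finset.range_zero, Finset.sum_empty, pow_zero, div_one]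
    exact hL
  | succ i ih =>
    intro hi
    have ih := ih (by omega)
    have e1 : k + 1 - i = (k + 1 - (i + 1)) + 1 := by omega
    rw [e1] at ih
    have := step hφ hφ1 hd0 hlog hL i (e := k + 1 - (i + 1)) (by omega) (c := lam / d ^ tri i) (by positivity) ih (hω i)
    rw [tri_succ, pow_add, ← div_div]
    exact this

end Pool.Agent.N315.CC
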