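import Mathlib
import Pool.Agent.N315.CC.Law

/-!
# Every window contains a chain
-/

set_option autoImplicit false
set_option linter.unusedSectionVars false

open MeasureTheory Filter Set
open scoped ENNReal Topology

namespace Pool.Agent.N315.CC

open Pool.Agent.R528.RM Pool.Agent.N740.HK

variable {Ω : Type} {m0 : MeasurableSpace Ω} {μ : Measure Ω} [IsProbabilityMeasure μ]
  {ℱ : Filtration ℕ m0} {A : ℕ → Set Ω} {φ : ℕ → ℕ} {d lam : ℝ}

lemma VF_b {δ : ℝ} {n : ℕ} (hn : 0 < Real.log n) {ω : Ω} (hω : ω ∉ VF μ ℱ A δ n) :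
    (1 - δ) / Real.log n ≤ dens μ ℱ A n ω ∧ dens μ ℱ A n ω ≤ (1 + δ) / Real.log n := by
  simp only [VF, mem_ofPred_eq, not_not] at hω
  have h3 := abs_le.1 hω
  constructor
  · rw [div_le_iff₀ hn]
    linarith
  · rw [le_div_iff₀ hn]
    linarith

/-- the length of the window -/
noncomputable def LL (lam : ℝ) (m : ℕ) (x : ℕ) : ℕ := ⌊lam * Real.log x ^ m⌋₊

lemma LL_lim (hlam : 0 ≤ lam) {m : ℕ} (hm : m ≠ 0) :
    Tendsto (fun x : ℕ => (LL lam m x : ℝ) / Real.log x ^ m) atTop (𝓝 lam) := by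
  have h1 : Tendsto (fun x : ℕ => Real.log (x : ℝ) ^ m) atTop atTop := (tendsto_pow_atTop hm).comp tendsto_logN
  exact (tendsto_nat_floor_mul_div_atTop hlam).comp h1

theorem upper (hA : ∀ n, MeasurableSet[ℱ n] (A n))
    (hd : ∀ᵐ ω ∂μ, Tendsto (fun n : ℕ => dens μ ℱ A n ω * Real.log n) atTop (𝓝 1))
    (hφ : StrictMono φ) (hφ1 : ∀ z, z < φ z) (hd0 : 0 < d)
    (hlog : Tendsto (fun z : ℕ => Real.log (φ z : ℕ) / Real.log z) atTop (𝓝 d)) (i : ℕ)
    (hlam : d ^ tri (i + 1) < lam) :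
    ∀ᵐ ω ∂μ, ∀ᶠ x : ℕ in atTop, ∃ n, x < n ∧ n ≤ x + LL lam (i + 2) x ∧ ω ∈ chn A φ (i + 1) n := by
  set L : ℕ → ℕ := LL lam (i + 2) with hLdef
  have hD0 : 0 < d ^ tri (i + 1) := by positivity
  have hlam0 : 0 < lam := hD0.trans hlam
  have hL : Tendsto (fun x : ℕ => (L x : ℝ) / Real.log x ^ (i + 1 + 1)) atTop (𝓝 lam) := LL_lim hlam0.le (by omega)
  set r : ℝ := lam / d ^ tri (i + 1) with hr
  have hr1 : 1 < r := (one_lt_div hD0).2 hlam
  set δ : ℝ := (r - 1) / (4 * r) with hδ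
  have hδ0 : 0 < δ := div_pos (by linarith) (by linarith)
  have hδ4 : δ < 1 / 4 := by
    rw [hδ, div_lt_iff₀ (by linarith)]
    linarith
  have hδr : δ * (4 * r) = r - 1 := by
    rw [hδ]
    field_simp
  set η : ℝ := (r - 1) / 4 with hη
  have hη0 : 0 < η := by
    rw [hη]
    linarith
  have hq0 : 0 < 1 - δ := by linarith
  have hkey : 1 + η ≤ (1 - δ) ^ 3 * r := by
    have h1 : 1 - 3 * δ ≤ (1 - δ) ^ 3 := by nlinarith [sq_nonneg δ, mul_nonneg hδ0.le (sq_nonneg δ)]
    have h2 : (1 - 3 * δ) * r ≤ (1 - δ) ^ 3 * r := mul_le_mul_of_nonneg_right h1 (by linarith)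
    rw [hη]
    linarith
  set c : ℝ := lam / d ^ tri i with hc
  have hc0 : 0 < c := by positivity
  have hcr : c / d ^ i = r := by
    rw [hc, hr, tri_succ, pow_add, div_div]
  set m : ℕ → ℕ := fun x => ⌈(1 - δ) * c * Real.log x ^ 2⌉₊ with hm
  set a : ℕ → ℕ := fun x => φ^[i] x with ha
  set j : ℕ → ℕ := fun x => φ^[i] (x + L x) - φ^[i] x with hj
  set B : ℕ → Set Ω := fun x => (noS A (GW A φ L i x) (a x) (j x) ∩ {ω | m x ≤ cG (GW A φ L i x) (a x) (j x) ω}) \
    vG (GW A φ L i x) (VF μ ℱ A δ) (a x) (j x) with hB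
  have hprob : ∀ᶠ x : ℕ in atTop, μ.real (B x) ≤ 1 / (x : ℝ) ^ (1 + η) := by
    have h1 := (log_it_shift hφ1 hlog hL i).eventually_lt_const (show d ^ i < d ^ i / (1 - δ) by
      rw [lt_div_iff₀ hq0]
      have : 0 < d ^ i := by positivity
      nlinarith)
    filter_upwards [h1, log_pos_ev, eventually_ge_atTop 3] with x h2 hx hx3
    set M : ℝ := Real.log (φ^[i] (x + L x) : ℕ) with hM
    have hx3' : (3 : ℝ) ≤ x := by exact_mod_cast hx3
    have hlx : 1 ≤ Real.log x := by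
      rw [Real.le_log_iff_exp_le (by linarith)]
      have := Real.exp_one_lt_d9
      linarith
    have hax : x ≤ φ^[i] x := it_ge hφ1 i x
    have hay : x ≤ φ^[i] (x + L x) := by
      have := it_ge hφ1 i (x + L x)
      omega
    have haj : a x + j x = φ^[i] (x + L x) := by
      have : φ^[i] x ≤ φ^[i] (x + L x) := (hφ.iterate i).monotone (by omega)
      simp only [ha, hj]
      omega
    have hM1 : 1 ≤ M := hlx.trans (Real.log_le_log (by linarith) (by exact_mod_cast hay))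
    have h3 := trial_le (μ := μ) (ℱ := ℱ) hA (fun t => GW_meas (L := L) hA hφ1 i x t) (fun n => VF_meas (A := A) δ n)
      (l := (1 - δ) / M) (by positivity) (by rw [div_le_one (by linarith)]; linarith) (j x) (a x)
      (fun n hn1 hn2 ω hω => by
        have hn3 : x ≤ n := hax.trans hn1
        have hn4 : (3 : ℝ) ≤ n := by exact_mod_cast hx3.trans hn3
        have hn5 : 0 < Real.log n := Real.log_pos (by linarith)
        have hn6 : Real.log n ≤ M := Real.log_le_log (by linarith) (by exact_mod_cast (by omega : n ≤ φ^[i] (x + L x)))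
        exact (div_le_div_of_nonneg_left hq0.le hn5 hn6).trans (VF_b hn5 hω).1) (m x) univ MeasurableSet.univ
    rw [univ_inter, probReal_univ, mul_one] at h3
    refine h3.trans ?_
    have h4 : (0 : ℝ) ≤ 1 - (1 - δ) / M := by
      rw [sub_nonneg, div_le_one (by linarith)]
      linarith
    have h5 : 1 - (1 - δ) / M ≤ Real.exp (-((1 - δ) / M)) := by
      have := Real.add_one_le_exp (-((1 - δ) / M))
      linarith
    refine (pow_le_pow_left₀ h4 h5 _).trans ?_
    rw [← Real.exp_nat_mul]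
    have e2 : 1 / (x : ℝ) ^ (1 + η) = Real.exp (-((1 + η) * Real.log x)) := by
      rw [Real.rpow_def_of_pos (by linarith), one_div, ← Real.exp_neg]
      congr 1
      ring
    rw [e2]
    apply Real.exp_le_exp.2
    have h6 : (1 - δ) * c * Real.log x ^ 2 ≤ (m x : ℝ) := Nat.le_ceil _
    have h7 : M * (1 - δ) ≤ d ^ i * Real.log x := by
      rw [div_lt_div_iff₀ hx hq0] at h2
      exact h2.le
    have h8 : (1 + η) * Real.log x ≤ (m x : ℝ) * ((1 - δ) / M) := by
      rw [← mul_div_assoc, le_div_iff₀ (by linarith)]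
      have hdi : 0 < d ^ i := by positivity
      have h9 : (1 + η) * Real.log x * M ≤ (1 - δ) ^ 3 * r * Real.log x * M := by
        have : 0 ≤ Real.log x * M := by positivity
        nlinarith
      have h10 : (1 - δ) ^ 3 * r * Real.log x * M = ((1 - δ) ^ 2 * r * Real.log x) * (M * (1 - δ)) := by ring
      have h11 : ((1 - δ) ^ 2 * r * Real.log x) * (M * (1 - δ)) ≤ ((1 - δ) ^ 2 * r * Real.log x) * (d ^ i * Real.log x) :=
        mul_le_mul_of_nonneg_left h7 (by positivity)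
      have h12 : ((1 - δ) ^ 2 * r * Real.log x) * (d ^ i * Real.log x) = ((1 - δ) * c * Real.log x ^ 2) * (1 - δ) := by
        rw [← hcr]
        field_simp
      have h13 : ((1 - δ) * c * Real.log x ^ 2) * (1 - δ) ≤ (m x : ℝ) * (1 - δ) := mul_le_mul_of_nonneg_right h6 hq0.le
      linarith
    linarith
  have hsum : ∑' x : ℕ, μ (B x) ≠ ∞ := by
    have h1 : Summable (fun x : ℕ => 1 / (x : ℝ) ^ (1 + η)) := Real.summable_one_div_nat_rpow.2 (by linarith)
    have h2 : Summable (fun x : ℕ => μ.real (B x)) := by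
      refine Summable.of_norm_bounded_eventually_nat h1 ?_
      filter_upwards [hprob] with x hx
      rw [Real.norm_of_nonneg measureReal_nonneg]
      exact hx
    have h3 : ∑' x : ℕ, μ (B x) = ENNReal.ofReal (∑' x : ℕ, μ.real (B x)) := by
      rw [ENNReal.ofReal_tsum_of_nonneg (fun _ => measureReal_nonneg) h2]
      congr 1
      funext i
      exact (ofReal_measureReal (measure_ne_top _ _)).symm
    rw [h3]
    exact ENNReal.ofReal_ne_top
  filter_upwards [ae_eventually_notMem hsum, hd, law (μ := μ) hA hd hφ hφ1 hd0 hlog (i + 1) hlam0.le hL] with ω h1 h2 h3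
  obtain ⟨m₀, hm₀⟩ := no_VF h2 hδ0
  have h4 := h3 i le_rfl
  rw [show i + 1 + 1 - i = 2 by omega] at h4
  filter_upwards [h1, eventually_ge_atTop m₀, log_pos_ev, h4.eventually_const_lt (show (1 - δ) * c < c by nlinarith)] with x hx hxm hx0 h5
  rw [lt_div_iff₀ (by positivity)] at h5
  by_contra hcon
  push Not at hcon
  apply hx
  refine ⟨⟨?_, ?_⟩, ?_⟩
  · rintro t _ _ ⟨n, hn1, hn2, hn3, hn4⟩ hAt
    rw [← hn3] at hAt
    exact hcon n hn1 hn2 (chn_succ.2 ⟨hn4, hAt⟩)
  · show m x ≤ cG (GW A φ L i x) (φ^[i] x) (φ^[i] (x + L x) - φ^[i] x) ω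
    rw [cG_GW hφ hφ1]
    exact Nat.ceil_le.2 h5.le
  · rintro ⟨t, ht1, _, _, ht4⟩
    have := it_ge hφ1 i x
    have ht1 : φ^[i] x ≤ t := ht1
    exact hm₀ t (by omega) ht4

end Pool.Agent.N315.CC
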