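import Mathlib
import Pool.Agent.N315.CC.Up

/-!
# Infinitely many windows contain no chain
-/

set_option autoImplicit false
set_option linter.unusedSectionVars false

open MeasureTheory Filter Set
open scoped ENNReal Topology

namespace Pool.Agent.N315.CC

open Pool.Agent.R528.RM Pool.Agent.N740.HK

variable {Ω : Type} {m0 : MeasurableSpace Ω} {μ : Measure Ω} [IsProbabilityMeasure μ]
  {ℱ : Filtration ℕ m0} {A : ℕ → Set Ω} {φ : ℕ → ℕ} {d lam : ℝ}

/-- the starting points -/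
noncomputable def xx (β : ℝ) (j : ℕ) : ℕ := ⌊(j : ℝ) ^ β⌋₊

lemma xx_mono {β : ℝ} (hβ : 0 ≤ β) : Monotone (xx β) := fun a b hab =>
  Nat.floor_mono (Real.rpow_le_rpow (Nat.cast_nonneg a) (by exact_mod_cast hab) hβ)

lemma xx_top {β : ℝ} (hβ : 0 < β) : Tendsto (xx β) atTop atTop :=
  tendsto_nat_floor_atTop.comp ((tendsto_rpow_atTop hβ).comp tendsto_natCast_atTop_atTop)

lemma xx_gap {β : ℝ} (hβ : 1 < β) (hlam : 0 ≤ lam) (m : ℕ) :
    ∀ᶠ j : ℕ in atTop, xx β j + LL lam m (xx β j) ≤ xx β (j + 1) := by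
  have h1 : ∀ᶠ x : ℝ in atTop, lam * (β * Real.log x) ^ m + 1 ≤ β * x ^ (β - 1) := by
    have h2 := (isLittleO_log_rpow_rpow_atTop (s := β - 1) (m : ℝ) (by linarith)).def
      (show (0 : ℝ) < β / (2 * (lam * β ^ m + 1)) by positivity)
    have h3 : ∀ᶠ x : ℝ in atTop, 2 ≤ β * x ^ (β - 1) :=
      ((tendsto_rpow_atTop (show 0 < β - 1 by linarith)).const_mul_atTop (by linarith)).eventually_ge_atTop 2
    filter_upwards [h2, h3, eventually_gt_atTop 1] with x hx hx2 hx0
    have hl : 0 ≤ Real.log x := Real.log_nonneg hx0.le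
    have hxp : 0 ≤ x ^ (β - 1) := by positivity
    rw [Real.norm_of_nonneg (by positivity), Real.norm_of_nonneg hxp, Real.rpow_natCast] at hx
    have h4 : lam * (β * Real.log x) ^ m ≤ β * x ^ (β - 1) / 2 := by
      calc lam * (β * Real.log x) ^ m = (lam * β ^ m) * Real.log x ^ m := by ring
        _ ≤ (lam * β ^ m) * (β / (2 * (lam * β ^ m + 1)) * x ^ (β - 1)) :=
            mul_le_mul_of_nonneg_left hx (by positivity)
        _ = (lam * β ^ m) / (lam * β ^ m + 1) * (β * x ^ (β - 1) / 2) := by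
            field_simp
        _ ≤ 1 * (β * x ^ (β - 1) / 2) := by
            refine mul_le_mul_of_nonneg_right ?_ (by positivity)
            rw [div_le_one (by positivity)]
            linarith
        _ = _ := one_mul _
    linarith
  filter_upwards [tendsto_natCast_atTop_atTop.eventually h1, eventually_ge_atTop 1] with j hj hj1
  have hj0 : (0 : ℝ) < j := by exact_mod_cast hj1
  have hj1' : (1 : ℝ) ≤ j := by exact_mod_cast hj1
  have hx1 : (xx β j : ℝ) ≤ (j : ℝ) ^ β := Nat.floor_le (by positivity)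
  have hL : (LL lam m (xx β j) : ℝ) ≤ lam * (β * Real.log j) ^ m := by
    have h4 : (LL lam m (xx β j) : ℝ) ≤ lam * Real.log (xx β j) ^ m :=
      Nat.floor_le (mul_nonneg hlam (pow_nonneg (Real.log_natCast_nonneg _) _))
    refine h4.trans (mul_le_mul_of_nonneg_left (pow_le_pow_left₀ (Real.log_natCast_nonneg _) ?_ _) hlam)
    rw [← Real.log_rpow hj0]
    rcases Nat.eq_zero_or_pos (xx β j) with h | h
    · rw [h, Nat.cast_zero, Real.log_zero]
      exact Real.log_nonneg (Real.one_le_rpow hj1' (by linarith))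
    · exact Real.log_le_log (by exact_mod_cast h) hx1
  have hb : (j : ℝ) ^ β + β * (j : ℝ) ^ (β - 1) ≤ ((j : ℝ) + 1) ^ β := by
    have h5 := one_add_mul_self_le_rpow_one_add (s := 1 / (j : ℝ)) (by
      have : 0 < 1 / (j : ℝ) := by positivity
      linarith) hβ.le
    have h6 : ((j : ℝ) + 1) ^ β = (j : ℝ) ^ β * (1 + 1 / (j : ℝ)) ^ β := by
      rw [← Real.mul_rpow hj0.le (by positivity)]
      congr 1
      field_simp
    rw [h6]
    have h7 : (j : ℝ) ^ (β - 1) = (j : ℝ) ^ β * (1 / (j : ℝ)) := by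
      rw [Real.rpow_sub hj0, Real.rpow_one, mul_one_div]
    rw [h7]
    have h8 := mul_le_mul_of_nonneg_left h5 (show (0 : ℝ) ≤ (j : ℝ) ^ β by positivity)
    linarith
  have hn : ((j : ℝ) + 1) ^ β - 1 < (xx β (j + 1) : ℝ) := by
    unfold xx
    push_cast
    exact Nat.sub_one_lt_floor _
  have : (xx β j : ℝ) + LL lam m (xx β j) ≤ (xx β (j + 1) : ℝ) := by linarith
  exact_mod_cast this

theorem lower (hA : ∀ n, MeasurableSet[ℱ n] (A n))
    (hd : ∀ᵐ ω ∂μ, Tendsto (fun n : ℕ => dens μ ℱ A n ω * Real.log n) atTop (𝓝 1))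
    (hφ : StrictMono φ) (hφ1 : ∀ z, z < φ z) (hd0 : 0 < d)
    (hlog : Tendsto (fun z : ℕ => Real.log (φ z : ℕ) / Real.log z) atTop (𝓝 d)) (i : ℕ)
    (hlam0 : 0 < lam) (hlam : lam < d ^ tri (i + 1)) :
    ∀ᵐ ω ∂μ, ∃ᶠ x : ℕ in atTop, ∀ n, x < n → n ≤ x + LL lam (i + 2) x → ω ∉ chn A φ (i + 1) n := by
  set L : ℕ → ℕ := LL lam (i + 2) with hLdef
  have hD0 : 0 < d ^ tri (i + 1) := by positivity
  have hL : Tendsto (fun x : ℕ => (L x : ℝ) / Real.log x ^ (i + 1 + 1)) atTop (𝓝 lam) := LL_lim hlam0.le (by omega)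
  set r : ℝ := lam / d ^ tri (i + 1) with hr
  have hr0 : 0 < r := by positivity
  have hr1 : r < 1 := (div_lt_one hD0).2 hlam
  set δ : ℝ := (1 - r) / 30 with hδ
  have hδ0 : 0 < δ := by
    rw [hδ]
    linarith
  have hδ1 : δ ≤ 1 := by
    rw [hδ]
    linarith
  set θ : ℝ := (1 + δ) ^ 4 * r with hθ
  have hθ0 : 0 < θ := by positivity
  have hθ1 : θ < 1 := by
    have h1 : (1 + δ) ^ 4 ≤ 1 + 15 * δ := by
      have h2 : δ ^ 2 ≤ δ := by nlinarith
      have h3 : δ ^ 3 ≤ δ := by nlinarith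
      have h4 : δ ^ 4 ≤ δ := by nlinarith
      nlinarith
    have h2 : θ ≤ (1 + 15 * δ) * r := mul_le_mul_of_nonneg_right h1 hr0.le
    have h3 : (1 + 15 * δ) * r = r + (1 - r) * r / 2 := by
      rw [hδ]
      ring
    nlinarith
  set β : ℝ := 1 / θ with hβ
  have hβ1 : 1 < β := (one_lt_div hθ0).2 hθ1
  set c : ℝ := lam / d ^ tri i with hc
  have hc0 : 0 < c := by positivity
  have hcr : c / d ^ i = r := by
    rw [hc, hr, tri_succ, pow_add, div_div]
  set M : ℕ → ℕ := fun x => ⌊(1 + δ) * c * Real.log x ^ 2⌋₊ with hM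
  set a : ℕ → ℕ := fun x => φ^[i] x with ha
  set jj : ℕ → ℕ := fun x => φ^[i] (x + L x) - φ^[i] x with hjj
  have haj : ∀ x, a x + jj x = φ^[i] (x + L x) := by
    intro x
    have : φ^[i] x ≤ φ^[i] (x + L x) := (hφ.iterate i).monotone (by omega)
    simp only [ha, hjj]
    omega
  set U : ℕ → Set Ω := fun x => noS A (GW A φ L i x) (a x) (jj x) ∪ {ω | M x < cG (GW A φ L i x) (a x) (jj x) ω} ∪
    vG (GW A φ L i x) (VF μ ℱ A δ) (a x) (jj x) with hU
  have hUm : ∀ x, MeasurableSet[ℱ (a x + jj x)] (U x) := fun x =>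
    ((noS_meas hA (fun t => GW_meas (L := L) hA hφ1 i x t) _ _).union
      (cG_meas (fun t => GW_meas (L := L) hA hφ1 i x t) _ _ (fun y => M x < y))).union
      (vG_meas (fun t => GW_meas (L := L) hA hφ1 i x t) (fun n => VF_meas δ n) _ _)
  -- one trial
  have hone : ∀ᶠ x : ℕ in atTop, ∀ C, MeasurableSet[ℱ (a x)] C →
      Real.exp (-(θ * Real.log x)) * μ.real C ≤ μ.real (C ∩ U x) := by
    have h1 := (log_it hφ1 hlog i).eventually_const_lt (show d ^ i / (1 + δ) < d ^ i by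
      rw [div_lt_iff₀ (by linarith)]
      have : 0 < d ^ i := by positivity
      nlinarith)
    have h2 := (tendsto_logN.comp (it_tendsto hφ1 i)).eventually_ge_atTop ((1 + δ) * ((1 + δ) / δ))
    filter_upwards [h1, h2, log_pos_ev, eventually_ge_atTop 3] with x h3 h4 hx hx3 C hC
    have h4 : (1 + δ) * ((1 + δ) / δ) ≤ Real.log (φ^[i] x : ℕ) := h4
    set Y : ℝ := Real.log (φ^[i] x : ℕ) with hY
    have hax : x ≤ φ^[i] x := it_ge hφ1 i x
    have hx3' : (3 : ℝ) ≤ x := by exact_mod_cast hx3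
    have hY0 : 0 < Y := lt_of_lt_of_le (by positivity) h4
    set u : ℝ := (1 + δ) / Y with hu
    have hu0 : 0 < u := by positivity
    have huδ : u * (1 + δ) ≤ δ := by
      rw [hu, div_mul_eq_mul_div, div_le_iff₀ hY0]
      calc (1 + δ) * (1 + δ) = δ * ((1 + δ) * ((1 + δ) / δ)) := by field_simp
        _ ≤ δ * Y := mul_le_mul_of_nonneg_left h4 hδ0.le
    have hu1 : u < 1 := by nlinarith
    have h5 := trial_ge (μ := μ) (ℱ := ℱ) hA (fun t => GW_meas (L := L) hA hφ1 i x t) (fun n => VF_meas (A := A) δ n)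
      (u := u) hu0.le hu1.le (jj x) (a x) (fun n hn1 hn2 ω hω => by
        have hn3 : x ≤ n := hax.trans hn1
        have hn4 : (3 : ℝ) ≤ n := by exact_mod_cast hx3.trans hn3
        have hn5 : 0 < Real.log n := Real.log_pos (by linarith)
        have hn6 : Y ≤ Real.log n := by
          have hn1 : φ^[i] x ≤ n := hn1
          exact Real.log_le_log (by exact_mod_cast (by omega : 0 < φ^[i] x)) (by exact_mod_cast hn1)
        exact (VF_b hn5 hω).2.trans (div_le_div_of_nonneg_left (by positivity) hY0 hn6)) (M x) C hC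
    refine le_trans (mul_le_mul_of_nonneg_right ?_ measureReal_nonneg) h5
    have h6 : 0 < 1 - u := by linarith
    have h7 : -((1 + δ) * u) ≤ Real.log (1 - u) := by
      have h8 := Real.one_sub_inv_le_log_of_pos h6
      have h9 : -((1 + δ) * u) ≤ 1 - (1 - u)⁻¹ := by
        have h10 : 1 - (1 - u)⁻¹ = -(u / (1 - u)) := by
          field_simp
          ring
        rw [h10, neg_le_neg_iff, div_le_iff₀ h6]
        nlinarith
      linarith
    have e1 : (1 - u) ^ M x = Real.exp (M x * Real.log (1 - u)) := by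
      rw [← Real.log_pow, Real.exp_log (by positivity)]
    rw [e1]
    apply Real.exp_le_exp.2
    have h11 : (M x : ℝ) ≤ (1 + δ) * c * Real.log x ^ 2 := Nat.floor_le (by positivity)
    have h12 : (M x : ℝ) * ((1 + δ) * u) ≤ θ * Real.log x := by
      have h13 : (M x : ℝ) * ((1 + δ) * u) ≤ ((1 + δ) * c * Real.log x ^ 2) * ((1 + δ) * u) :=
        mul_le_mul_of_nonneg_right h11 (by positivity)
      refine h13.trans ?_
      have h14 : d ^ i * Real.log x ≤ Y * (1 + δ) := by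
        rw [div_lt_div_iff₀ (by linarith) hx] at h3
        exact h3.le
      have h15 : ((1 + δ) * c * Real.log x ^ 2) * ((1 + δ) * u) = ((1 + δ) ^ 3 * r * Real.log x) * (d ^ i * Real.log x) / Y := by
        rw [hu, ← hcr]
        field_simp
      rw [h15, div_le_iff₀ hY0]
      have h16 := mul_le_mul_of_nonneg_left h14 (show 0 ≤ (1 + δ) ^ 3 * r * Real.log x by positivity)
      have h17 : ((1 + δ) ^ 3 * r * Real.log x) * (Y * (1 + δ)) = θ * Real.log x * Y := by
        rw [hθ]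
        ring
      linarith
    have h18 : (M x : ℝ) * -((1 + δ) * u) ≤ M x * Real.log (1 - u) := mul_le_mul_of_nonneg_left h7 (Nat.cast_nonneg _)
    linarith
  obtain ⟨x₀, hx₀⟩ := eventually_atTop.1 hone
  obtain ⟨k₁, hk₁⟩ := eventually_atTop.1 ((xx_top (show 0 < β by linarith)).eventually_ge_atTop (x₀ + 1))
  obtain ⟨k₂, hk₂⟩ := eventually_atTop.1 (xx_gap hβ1 hlam0.le (i + 2))
  set k₀ : ℕ := max (max k₁ k₂) 1 with hk₀
  set D : ℕ → Set Ω := fun k => if k₀ ≤ k then U (xx β k) else ∅ with hD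
  have hs : Monotone (fun k => φ^[i] (xx β k)) := fun p q hpq =>
    (hφ.iterate i).monotone (xx_mono (by linarith) hpq)
  have hDm : ∀ k, MeasurableSet[ℱ (φ^[i] (xx β (k + 1)))] (D k) := by
    intro k
    simp only [hD]
    by_cases h : k₀ ≤ k
    · rw [if_pos h]
      have h1 := hUm (xx β k)
      rw [haj] at h1
      exact ℱ.mono ((hφ.iterate i).monotone (hk₂ k (by omega))) _ h1
    · rw [if_neg h]
      exact @MeasurableSet.empty _ (ℱ (φ^[i] (xx β (k + 1))))
  have hio := trials_io (μ := μ) (ℱ := ℱ) hs hDm (p := fun k => 1 / ((k : ℝ) + 1)) (k₀ := k₀) (fun k hk C hC => by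
    have h1 := hk₁ k (by omega)
    have h2 := hx₀ (xx β k) (by omega) C hC
    simp only [hD, if_pos hk]
    refine le_trans (mul_le_mul_of_nonneg_right ?_ measureReal_nonneg) h2
    have hk1 : (1 : ℝ) ≤ k := by exact_mod_cast (by omega : 1 ≤ k)
    have hx0 : (0 : ℝ) < xx β k := by exact_mod_cast (by omega : 0 < xx β k)
    have h3 : Real.log (xx β k) ≤ β * Real.log k := by
      rw [← Real.log_rpow (by linarith)]
      exact Real.log_le_log hx0 (Nat.floor_le (by positivity))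
    have h4 : θ * Real.log (xx β k) ≤ Real.log k := by
      calc θ * Real.log (xx β k) ≤ θ * (β * Real.log k) := mul_le_mul_of_nonneg_left h3 hθ0.le
        _ = Real.log k := by
          rw [hβ]
          field_simp
    calc 1 / ((k : ℝ) + 1) ≤ 1 / (k : ℝ) := one_div_le_one_div_of_le (by linarith) (by linarith)
      _ = Real.exp (-Real.log k) := by
        rw [Real.exp_neg, Real.exp_log (by linarith), one_div]
      _ ≤ _ := Real.exp_le_exp.2 (by linarith)) Real.tendsto_sum_range_one_div_nat_succ_atTop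
  filter_upwards [hio, hd, law (μ := μ) hA hd hφ hφ1 hd0 hlog (i + 1) hlam0.le hL] with ω h1 h2 h3
  obtain ⟨m₀, hm₀⟩ := no_VF h2 hδ0
  have h4 := h3 i le_rfl
  rw [show i + 1 + 1 - i = 2 by omega] at h4
  obtain ⟨x₁, hx₁⟩ := eventually_atTop.1 (log_pos_ev.and (h4.eventually_lt_const (show c < (1 + δ) * c by nlinarith)))
  rw [Filter.frequently_atTop]
  intro X
  obtain ⟨K, hK⟩ := eventually_atTop.1 ((xx_top (show 0 < β by linarith)).eventually_ge_atTop (X + m₀ + x₁))
  obtain ⟨k, hk, hkD⟩ := h1 (max K k₀)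
  have hk' := hK k ((le_max_left _ _).trans hk)
  refine ⟨xx β k, by omega, ?_⟩
  simp only [hD, if_pos (show k₀ ≤ k from (le_max_right _ _).trans hk)] at hkD
  obtain ⟨h5, h6⟩ := hx₁ (xx β k) (by omega)
  rw [div_lt_iff₀ (by positivity)] at h6
  rcases hkD with (h7 | h7) | ⟨t, ht1, _, _, ht4⟩
  · intro n hn1 hn2 hn3
    obtain ⟨h8, h9⟩ := chn_succ.1 hn3
    have h10 : φ^[i] (xx β k) < φ^[i] n := (hφ.iterate i) hn1
    have h11 : φ^[i] n ≤ φ^[i] (xx β k + L (xx β k)) := (hφ.iterate i).monotone hn2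
    have h12 := haj (xx β k)
    refine h7 (φ^[i] n - 1) ?_ ?_ ⟨n, hn1, hn2, by omega, h8⟩ ?_
    · show φ^[i] (xx β k) ≤ φ^[i] n - 1
      omega
    · rw [h12]
      omega
    · rw [show φ^[i] n - 1 + 1 = φ^[i] n by omega]
      exact h9
  · exfalso
    have h7 : M (xx β k) < cG (GW A φ L i (xx β k)) (φ^[i] (xx β k)) (φ^[i] (xx β k + L (xx β k)) - φ^[i] (xx β k)) ω := h7
    rw [cG_GW hφ hφ1] at h7
    have h8 : NN A φ L i (xx β k) ω ≤ M (xx β k) := Nat.le_floor h6.le
    omega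
  · exfalso
    have := it_ge hφ1 i (xx β k)
    have ht1 : φ^[i] (xx β k) ≤ t := ht1
    exact hm₀ t (by omega) ht4

end Pool.Agent.N315.CC
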