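import Mathlib
import Pool.Agent.N315.CC.Low

/-!
# Gaps
-/

set_option autoImplicit false

open Filter Set
open scoped Topology

namespace Pool.Agent.N315.CC

/-- the least member of `C` greater than `s` -/
noncomputable def nextMember (C : Set ℕ) (s : ℕ) : ℕ := sInf {t | t ∈ C ∧ s < t}

theorem gaps (C : Set ℕ) {D : ℝ} (hD : 0 < D) (m : ℕ)
    (hup : ∀ j : ℕ, ∀ᶠ x : ℕ in atTop, ∃ n, n ∈ C ∧ x < n ∧ n ≤ x + LL (D + 1 / ((j : ℝ) + 1)) m x)
    (hlo : ∀ j : ℕ, ∃ᶠ x : ℕ in atTop, ∀ n, x < n → n ≤ x + LL (D * (1 - 1 / ((j : ℝ) + 2))) m x → n ∉ C) :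
    C.Infinite ∧ ∀ ε : ℝ, 0 < ε →
      (∀ᶠ s : ℕ in atTop, s ∈ C → (nextMember C s : ℝ) - s ≤ (D + ε) * Real.log s ^ m) ∧
      ∃ᶠ s : ℕ in atTop, s ∈ C ∧ (D - ε) * Real.log s ^ m < (nextMember C s : ℝ) - s := by
  have hinf : C.Infinite := by
    rw [Set.infinite_iff_exists_gt]
    intro a
    obtain ⟨x, hx⟩ := eventually_atTop.1 (hup 0)
    obtain ⟨n, h1, h2, _⟩ := hx (max a x) (le_max_right _ _)
    exact ⟨n, h1, lt_of_le_of_lt (le_max_left _ _) h2⟩
  refine ⟨hinf, fun ε hε => ⟨?_, ?_⟩⟩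
  · obtain ⟨j, hj⟩ := exists_nat_gt (1 / ε)
    have hj' : 1 / ((j : ℝ) + 1) ≤ ε := by
      rw [div_le_iff₀ (by positivity)]
      rw [div_lt_iff₀ hε] at hj
      nlinarith
    filter_upwards [hup j] with s hs _
    obtain ⟨n, h1, h2, h3⟩ := hs
    have h4 : nextMember C s ≤ n := Nat.sInf_le ⟨h1, h2⟩
    have hl : 0 ≤ Real.log (s : ℝ) ^ m := pow_nonneg (Real.log_natCast_nonneg s) m
    have h5 : (LL (D + 1 / ((j : ℝ) + 1)) m s : ℝ) ≤ (D + 1 / ((j : ℝ) + 1)) * Real.log s ^ m :=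
      Nat.floor_le (by positivity)
    have h6 : (nextMember C s : ℝ) ≤ s + (LL (D + 1 / ((j : ℝ) + 1)) m s : ℝ) := by exact_mod_cast h4.trans h3
    have h7 := mul_le_mul_of_nonneg_right (show D + 1 / ((j : ℝ) + 1) ≤ D + ε by linarith) hl
    linarith
  · obtain ⟨j, hj⟩ := exists_nat_gt (D / ε)
    set lam : ℝ := D * (1 - 1 / ((j : ℝ) + 2)) with hlam
    have hj2 : (0 : ℝ) ≤ j := Nat.cast_nonneg j
    have hlam1 : D - ε ≤ lam := by
      have h1 : D * (1 / ((j : ℝ) + 2)) ≤ ε := by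
        rw [mul_one_div, div_le_iff₀ (by positivity)]
        rw [div_lt_iff₀ hε] at hj
        nlinarith
      rw [hlam, mul_sub, mul_one]
      linarith
    have hlam0 : 0 ≤ lam := by
      refine mul_nonneg hD.le ?_
      rw [sub_nonneg, div_le_one (by positivity)]
      linarith
    rw [Filter.frequently_atTop]
    intro S
    obtain ⟨c, hc1, hc2⟩ := hinf.exists_gt (S + 1)
    obtain ⟨x, hx1, hx2⟩ := (Filter.frequently_atTop.1 (hlo j)) c
    -- the last member up to `x`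
    classical
    set s : ℕ := Nat.findGreatest (fun t => t ∈ C) x with hs
    have hs1 : s ∈ C := Nat.findGreatest_spec (P := fun t => t ∈ C) hx1 hc1
    have hs2 : c ≤ s := Nat.le_findGreatest hx1 hc1
    have hs3 : s ≤ x := Nat.findGreatest_le x
    have hne : {t | t ∈ C ∧ s < t}.Nonempty := by
      obtain ⟨q, hq1, hq2⟩ := hinf.exists_gt s
      exact ⟨q, hq1, hq2⟩
    have h7 := Nat.sInf_mem hne
    have h8 : x < nextMember C s := by
      by_contra hcon
      push Not at hcon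
      exact Nat.findGreatest_is_greatest (P := fun t => t ∈ C) (n := x) h7.2 hcon h7.1
    have h9 : x + LL lam m x < nextMember C s := by
      by_contra hcon
      push Not at hcon
      exact hx2 _ h8 hcon h7.1
    refine ⟨s, by omega, hs1, ?_⟩
    have h10 : lam * Real.log x ^ m < (LL lam m x : ℝ) + 1 := Nat.lt_floor_add_one _
    have h11 : (x : ℝ) + LL lam m x + 1 ≤ nextMember C s := by exact_mod_cast h9
    have h12 : (s : ℝ) ≤ x := by exact_mod_cast hs3
    have h13 : Real.log (s : ℝ) ≤ Real.log x := Real.log_le_log (by exact_mod_cast (by omega : 0 < s)) h12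
    have hl : 0 ≤ Real.log (s : ℝ) ^ m := pow_nonneg (Real.log_natCast_nonneg s) m
    have h14 : Real.log (s : ℝ) ^ m ≤ Real.log x ^ m := pow_le_pow_left₀ (Real.log_natCast_nonneg s) h13 m
    have h15 := mul_le_mul_of_nonneg_right hlam1 hl
    have h16 := mul_le_mul_of_nonneg_left h14 hlam0
    linarith

end Pool.Agent.N315.CC
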