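import Mathlib

/-!
# Integer polynomials as maps of the natural numbers
-/

set_option autoImplicit false

open Filter Set
open scoped Topology

namespace Pool.Agent.N315.CC

open Polynomial

lemma tendsto_int_real : Tendsto (fun z : ℤ => (z : ℝ)) atTop atTop := tendsto_intCast_atTop_atTop

lemma eval_map_real (f : ℤ[X]) (z : ℤ) : (f.map (Int.castRingHom ℝ)).eval (z : ℝ) = ((f.eval z : ℤ) : ℝ) := by
  have := eval_intCast_map (Int.castRingHom ℝ) f z
  simpa using this

lemma dich (Q : ℝ[X]) : (∀ᶠ x : ℝ in atTop, 0 < Q.eval x) ∨ ∀ᶠ x : ℝ in atTop, Q.eval x ≤ 0 := by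
  by_cases h : 0 < Q.degree
  · rcases le_total 0 Q.leadingCoeff with h1 | h1
    · exact Or.inl ((Q.tendsto_atTop_of_leadingCoeff_nonneg h h1).eventually_gt_atTop 0)
    · exact Or.inr ((Q.tendsto_atBot_of_leadingCoeff_nonpos h h1).eventually_le_atBot 0)
  · rw [eq_C_of_degree_le_zero (not_lt.1 h)]
    simp only [eval_C]
    rcases lt_or_ge 0 (Q.coeff 0) with h1 | h1
    · exact Or.inl (Eventually.of_forall fun _ => h1)
    · exact Or.inr (Eventually.of_forall fun _ => h1)

lemma lead_pos (f : ℤ[X]) (hf : ∀ᶠ z : ℤ in atTop, z < f.eval z) :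
    0 < (f.map (Int.castRingHom ℝ)).degree ∧ 0 < (f.map (Int.castRingHom ℝ)).leadingCoeff := by
  set P : ℝ[X] := f.map (Int.castRingHom ℝ) with hP
  have htop : Tendsto (fun z : ℤ => P.eval (z : ℝ)) atTop atTop := by
    refine tendsto_atTop_mono' _ ?_ tendsto_int_real
    filter_upwards [hf] with z hz
    rw [hP, eval_map_real]
    exact_mod_cast hz.le
  have hdeg : 0 < P.degree := by
    by_contra h
    rw [eq_C_of_degree_le_zero (not_lt.1 h)] at htop
    simp only [eval_C] at htop
    exact not_tendsto_const_atTop _ _ htop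
  refine ⟨hdeg, ?_⟩
  by_contra h
  have h1 := (P.tendsto_atBot_of_leadingCoeff_nonpos hdeg (not_lt.1 h)).comp tendsto_int_real
  obtain ⟨z, h2, h3⟩ := ((h1.eventually_le_atBot (-1)).and (htop.eventually_ge_atTop 1)).exists
  have h2 : P.eval (z : ℝ) ≤ -1 := h2
  linarith

lemma ev_mono (f : ℤ[X]) (hf : ∀ᶠ z : ℤ in atTop, z < f.eval z) :
    ∀ᶠ z : ℤ in atTop, f.eval z < f.eval (z + 1) := by
  set Q : ℤ[X] := f.comp (X + 1) - f with hQ
  have e : ∀ z : ℤ, ((f.eval (z + 1) - f.eval z : ℤ) : ℝ) = (Q.map (Int.castRingHom ℝ)).eval (z : ℝ) := by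
    intro z
    rw [eval_map_real, hQ]
    simp [eval_comp]
  rcases dich (Q.map (Int.castRingHom ℝ)) with h | h
  · filter_upwards [tendsto_int_real.eventually h] with z hz
    rw [← e] at hz
    have hz : 0 < f.eval (z + 1) - f.eval z := by exact_mod_cast hz
    linarith
  · exfalso
    have h1 : ∀ᶠ z : ℤ in atTop, f.eval (z + 1) ≤ f.eval z := by
      filter_upwards [tendsto_int_real.eventually h] with z hz
      rw [← e] at hz
      have hz : f.eval (z + 1) - f.eval z ≤ 0 := by exact_mod_cast hz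
      linarith
    obtain ⟨z₀, hz₀⟩ := eventually_atTop.1 (h1.and hf)
    have h2 : ∀ n : ℕ, f.eval (z₀ + n) ≤ f.eval z₀ := by
      intro n
      induction n with
      | zero => simp
      | succ n ih =>
        refine le_trans ?_ ih
        have := (hz₀ (z₀ + n) (by omega)).1
        push_cast
        rwa [← add_assoc]
    have h3 := h2 (f.eval z₀ - z₀).toNat
    have h4 := (hz₀ (z₀ + (f.eval z₀ - z₀).toNat) (by omega)).2
    omega

lemma log_eval (f : ℤ[X]) (hf : ∀ᶠ z : ℤ in atTop, z < f.eval z) :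
    Tendsto (fun n : ℕ => Real.log ((f.eval (n : ℤ) : ℤ) : ℝ) / Real.log n) atTop (𝓝 (f.natDegree : ℝ)) := by
  obtain ⟨hdeg, hlc⟩ := lead_pos f hf
  set P : ℝ[X] := f.map (Int.castRingHom ℝ) with hP
  have hnd : P.natDegree = f.natDegree := natDegree_map_eq_of_injective (Int.cast_injective (α := ℝ)) f
  have h1 : Tendsto (fun x : ℝ => P.eval x / x ^ P.natDegree) atTop (𝓝 P.leadingCoeff) := by
    have h2 := P.isEquivalent_atTop_lead
    have h3 : ∀ᶠ x : ℝ in atTop, P.leadingCoeff * x ^ P.natDegree ≠ 0 := by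
      filter_upwards [eventually_gt_atTop 0] with x hx
      positivity
    have h4 := ((Asymptotics.isEquivalent_iff_tendsto_one h3).1 h2).const_mul P.leadingCoeff
    rw [mul_one] at h4
    refine h4.congr' ?_
    filter_upwards [eventually_gt_atTop 0] with x hx
    simp only [Pi.div_apply]
    field_simp
  have h2 := (Real.continuousAt_log hlc.ne').tendsto.comp (h1.comp (tendsto_natCast_atTop_atTop (R := ℝ)))
  have h3 : Tendsto (fun x : ℕ => Real.log x) atTop atTop := Real.tendsto_log_atTop.comp tendsto_natCast_atTop_atTop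
  have h4 := (h2.div_atTop h3).add_const (f.natDegree : ℝ)
  rw [zero_add] at h4
  refine h4.congr' ?_
  have h5 : Tendsto (fun n : ℕ => P.eval (n : ℝ)) atTop atTop :=
    (P.tendsto_atTop_of_leadingCoeff_nonneg hdeg hlc.le).comp tendsto_natCast_atTop_atTop
  filter_upwards [h5.eventually_gt_atTop 0, h3.eventually_gt_atTop 0, eventually_gt_atTop 0] with n hn hl hn0
  have hn0' : (0 : ℝ) < n := by exact_mod_cast hn0
  simp only [Function.comp]
  rw [Real.log_div hn.ne' (by positivity), Real.log_pow, hnd, sub_div, mul_div_assoc, div_self hl.ne', mul_one,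
    sub_add_cancel]
  congr 2
  have := eval_map_real f (n : ℤ)
  rw [Int.cast_natCast] at this
  exact this

/-- the map of the natural numbers which is eventually equal to the polynomial -/
theorem exists_map (f : ℤ[X]) (hf : ∀ᶠ z : ℤ in atTop, z < f.eval z) :
    ∃ φ : ℕ → ℕ, StrictMono φ ∧ (∀ z, z < φ z) ∧ 0 < f.natDegree ∧
      Tendsto (fun z : ℕ => Real.log (φ z : ℕ) / Real.log z) atTop (𝓝 (f.natDegree : ℝ)) ∧
      ∃ z₀ : ℕ, ∀ n : ℕ, z₀ ≤ n → ∀ i, (fun z : ℤ => f.eval z)^[i] (n : ℤ) = (φ^[i] n : ℕ) := by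
  obtain ⟨z₁, hz₁⟩ := eventually_atTop.1 (hf.and (ev_mono f hf))
  set z₀ : ℕ := z₁.toNat with hz₀
  have h1 : ∀ n : ℕ, z₀ ≤ n → (n : ℤ) < f.eval (n : ℤ) ∧ f.eval (n : ℤ) < f.eval ((n : ℤ) + 1) := fun n hn => hz₁ n (by omega)
  set φ : ℕ → ℕ := fun n => if n < z₀ then n + 1 else (f.eval (n : ℤ)).toNat with hφ
  have e1 : ∀ n, z₀ ≤ n → (φ n : ℤ) = f.eval (n : ℤ) := by
    intro n hn
    simp only [hφ, if_neg (not_lt.2 hn)]
    have := (h1 n hn).1
    omega
  have e2 : ∀ n, n < φ n := by
    intro n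
    by_cases hn : n < z₀
    · simp only [hφ, if_pos hn]
      omega
    · have h2 := e1 n (not_lt.1 hn)
      have h3 := (h1 n (not_lt.1 hn)).1
      omega
  refine ⟨φ, ?_, e2, ?_, ?_, z₀, ?_⟩
  · refine strictMono_nat_of_lt_succ fun n => ?_
    by_cases hn : n < z₀
    · have h2 := e2 (n + 1)
      simp only [hφ, if_pos hn] at h2 ⊢
      exact h2
    · have h2 := e1 n (not_lt.1 hn)
      have h3 := e1 (n + 1) (by omega)
      have h4 := (h1 n (not_lt.1 hn)).2
      push_cast at h3
      omega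
  · have h2 := (lead_pos f hf).1
    have hnd : (f.map (Int.castRingHom ℝ)).natDegree = f.natDegree :=
      natDegree_map_eq_of_injective (Int.cast_injective (α := ℝ)) f
    rw [← hnd]
    exact natDegree_pos_iff_degree_pos.2 h2
  · refine (log_eval f hf).congr' ?_
    filter_upwards [eventually_ge_atTop z₀] with n hn
    rw [← e1 n hn]
    simp
  · intro n hn i
    induction i with
    | zero => rfl
    | succ i ih =>
      rw [Function.iterate_succ_apply', Function.iterate_succ_apply', ih]
      have h5 : n ≤ φ^[i] n := by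
        clear ih
        induction i with
        | zero => exact le_rfl
        | succ i ih =>
          rw [Function.iterate_succ_apply']
          exact ih.trans (e2 _).le
      exact (e1 _ (hn.trans h5)).symm

end Pool.Agent.N315.CC
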